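import Pool.Agent.V5helper30.W3.Stm

/-!
# Project W3: job NSUR
-/

set_option autoImplicit false

open MvPolynomial

namespace Pool.Agent.V5helper29.W3

open Pool.Agent.Helper720.Pow Pool.Agent.V5helper30.W3 Pool.Agent.V5helper30.WL

variable {K : Type*} [Field K]

/-- the adjoint of the multiplication by the sum of the variables -/
theorem adj {n : ℕ} (i : ℕ) (Λ : (Fin n →₀ ℕ) → K) (p : MvPolynomial (Fin n) K) :
    ∑ w ∈ (Finset.univ : Finset (Fin n)).finsuppAntidiag (i + 1), Λ w * coeff w (el K n * p) =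
      ∑ m ∈ (Finset.univ : Finset (Fin n)).finsuppAntidiag i, (∑ c, Λ (m + Finsupp.single c 1)) * coeff m p := by
  classical
  have h1 : ∀ w : Fin n →₀ ℕ, Λ w * coeff w (el K n * p) =
      ∑ c, if w c = 0 then 0 else Λ w * coeff (w - Finsupp.single c 1) p := by
    intro w
    rw [coeff_el_mul, Finset.mul_sum]
    refine Finset.sum_congr rfl fun c _ => ?_
    rw [mul_ite, mul_zero]
  have h2 : ∀ m : Fin n →₀ ℕ, (∑ c, Λ (m + Finsupp.single c 1)) * coeff m p =
      ∑ c, Λ (m + Finsupp.single c 1) * coeff m p := fun m => Finset.sum_mul _ _ _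
  rw [Finset.sum_congr rfl fun w _ => h1 w, Finset.sum_congr rfl fun m _ => h2 m, Finset.sum_comm,
    Finset.sum_comm (s := (Finset.univ : Finset (Fin n)).finsuppAntidiag i)]
  refine Finset.sum_congr rfl fun c _ => ?_
  rw [← Finset.sum_filter_add_sum_filter_not _ (fun w : Fin n →₀ ℕ => w c = 0)]
  rw [Finset.sum_eq_zero (s := Finset.filter (fun w : Fin n →₀ ℕ => w c = 0) _) (fun w hw => by
    rw [if_pos (Finset.mem_filter.1 hw).2]), zero_add]
  symm
  refine Finset.sum_bij' (fun m _ => m + Finsupp.single c 1) (fun w _ => w - Finsupp.single c 1) ?_ ?_ ?_ ?_ ?_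
  · intro m hm
    rw [mem_anti] at hm
    rw [Finset.mem_filter, mem_anti]
    refine ⟨by rw [map_add, hm, Finsupp.degree_single], ?_⟩
    simp
  · intro w hw
    rw [Finset.mem_filter, mem_anti] at hw
    rw [mem_anti]
    have := degree_sub_single hw.2
    omega
  · intro m _
    simp
  · intro w hw
    rw [Finset.mem_filter] at hw
    apply tsub_add_cancel_of_le
    rw [Finsupp.single_le_iff]
    omega
  · intro m _
    have h3 : (m + Finsupp.single c 1 : Fin n →₀ ℕ) c ≠ 0 := by simp
    rw [if_neg h3]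
    simp

/-- antisymmetrization -/
def lam (v : ℕ → ℕ → ℕ → K) (a b c : ℕ) : K := v a b c - v b a c - v a c b - v c b a + v b c a + v c a b

/-- the transpose of the multiplication -/
def LL (v : ℕ → ℕ → ℕ → K) (a b c : ℕ) : K := lam v (a + 1) b c + lam v a (b + 1) c + lam v a b (c + 1)

theorem LL_swap1 (v : ℕ → ℕ → ℕ → K) (a b c : ℕ) : LL v b a c = - LL v a b c := by
  unfold LL lam; ring

theorem LL_swap2 (v : ℕ → ℕ → ℕ → K) (a b c : ℕ) : LL v a c b = - LL v a b c := by
  unfold LL lam; ring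

theorem LL_eq1 (v : ℕ → ℕ → ℕ → K) (a c : ℕ) : LL v a a c = 0 := by
  unfold LL lam; ring

theorem LL_eq2 (v : ℕ → ℕ → ℕ → K) (a c : ℕ) : LL v c a a = 0 := by
  unfold LL lam; ring

theorem LL_eq3 (v : ℕ → ℕ → ℕ → K) (a c : ℕ) : LL v a c a = 0 := by
  unfold LL lam; ring

theorem LL_all (d k i : ℕ) (v : ℕ → ℕ → ℕ → K)
    (h : ∀ a b c, b < a → c < b → a + b + c = i → a / d + b / d + c / d < k → LL v a b c = 0) :
    ∀ a b c, a + b + c = i → a / d + b / d + c / d < k → LL v a b c = 0 := by
  intro a b c h1 h2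
  rcases lt_trichotomy a b with hab | hab | hab
  · rcases lt_trichotomy b c with hbc | hbc | hbc
    · -- a < b < c
      have h3 := h c b a hbc hab (by omega) (by omega)
      have h4 : LL v a b c = - LL v c b a := by unfold LL lam; ring
      rw [h4, h3, neg_zero]
    · rw [hbc]; exact LL_eq2 v c a
    · rcases lt_trichotomy a c with hac | hac | hac
      · -- a < c < b
        have h3 := h b c a hbc hac (by omega) (by omega)
        have h4 : LL v a b c = LL v b c a := by unfold LL lam; ring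
        rw [h4, h3]
      · rw [hac]; exact LL_eq3 v c b
      · -- c < a < b
        have h3 := h b a c hab hac (by omega) (by omega)
        rw [LL_swap1 v b a c, h3, neg_zero]
  · rw [hab]; exact LL_eq1 v b c
  · rcases lt_trichotomy b c with hbc | hbc | hbc
    · rcases lt_trichotomy a c with hac | hac | hac
      · -- b < a < c
        have h3 := h c a b hac hab (by omega) (by omega)
        have h4 : LL v a b c = LL v c a b := by unfold LL lam; ring
        rw [h4, h3]
      · rw [hac]; exact LL_eq3 v c b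
      · -- b < c < a
        have h3 := h a c b hac hbc (by omega) (by omega)
        rw [LL_swap2 v a c b, h3, neg_zero]
    · rw [hbc]; exact LL_eq2 v c a
    · exact h a b c hab hbc h1 h2

/-- the strictly sorted triples -/
def SS (d k i : ℕ) : Finset (ℕ × ℕ × ℕ) := (W d k i).filter fun p => p.2.1 < p.1 ∧ p.2.2 < p.2.1

theorem mem_SS {d k i a b c : ℕ} :
    (a, b, c) ∈ SS d k i ↔ (a + b + c = i ∧ a / d + b / d + c / d < k) ∧ b < a ∧ c < b := by
  unfold SS W
  rw [Finset.mem_filter, Finset.mem_filter, Finset.mem_product, Finset.mem_product, Finset.mem_range,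
    Finset.mem_range, Finset.mem_range]
  constructor
  · rintro ⟨⟨_, h2⟩, h3⟩
    exact ⟨h2, h3⟩
  · rintro ⟨h2, h3⟩
    refine ⟨⟨⟨?_, ?_, ?_⟩, h2⟩, h3⟩ <;> simp only <;> omega

/-- extension by zero -/
noncomputable def ext' (d k i : ℕ) (u : SS d k i → K) (a b c : ℕ) : K := by
  classical
  exact if h : (a, b, c) ∈ SS d k i then u ⟨(a, b, c), h⟩ else 0

theorem ext_add (d k i : ℕ) (u u' : SS d k i → K) (a b c : ℕ) :
    ext' d k i (u + u') a b c = ext' d k i u a b c + ext' d k i u' a b c := by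
  unfold ext'
  split_ifs
  · rfl
  · rw [add_zero]

theorem ext_smul (d k i : ℕ) (s : K) (u : SS d k i → K) (a b c : ℕ) :
    ext' d k i (s • u) a b c = s * ext' d k i u a b c := by
  unfold ext'
  split_ifs
  · rfl
  · rw [mul_zero]

theorem ext_zero (d k i : ℕ) (u : SS d k i → K) (a b c : ℕ)
    (h : ¬ ((a + b + c = i ∧ a / d + b / d + c / d < k) ∧ b < a ∧ c < b)) : ext' d k i u a b c = 0 := by
  unfold ext'
  rw [dif_neg]
  rwa [mem_SS]

theorem lam_zero (d k i : ℕ) (u : SS d k i → K) (a b c : ℕ)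
    (h : ¬ (a + b + c = i ∧ a / d + b / d + c / d < k)) : lam (ext' d k i u) a b c = 0 := by
  unfold lam
  rw [ext_zero, ext_zero, ext_zero, ext_zero, ext_zero, ext_zero]
  · ring
  all_goals
    rintro ⟨⟨h1, h2⟩, _⟩
    exact h ⟨by omega, by omega⟩

theorem lam_sorted (d k i : ℕ) (u : SS d k i → K) (a b c : ℕ) (h : (a, b, c) ∈ SS d k i) :
    lam (ext' d k i u) a b c = u ⟨(a, b, c), h⟩ := by
  have h' := mem_SS.1 h
  unfold lam
  rw [ext_zero d k i u b a c (by omega), ext_zero d k i u a c b (by omega), ext_zero d k i u c b a (by omega),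
    ext_zero d k i u b c a (by omega), ext_zero d k i u c a b (by omega)]
  unfold ext'
  rw [dif_pos h]
  ring

/-- Job NSUR. -/
theorem t_NSUR (K : Type*) [Field K] : S_NSUR K := by
  classical
  intro d k i hd hss hsurj
  let Φ : (SS d k (i + 1) → K) →ₗ[K] (SS d k i → K) :=
    { toFun := fun u m => LL (ext' d k (i + 1) u) m.1.1 m.1.2.1 m.1.2.2
      map_add' := fun u u' => by
        funext m
        rw [Pi.add_apply]
        unfold LL lam
        simp only [ext_add]
        ring
      map_smul' := fun s u => by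
        funext m
        rw [Pi.smul_apply, smul_eq_mul, RingHom.id_apply]
        unfold LL lam
        simp only [ext_smul]
        ring }
  have hrk : Module.finrank K (SS d k i → K) < Module.finrank K (SS d k (i + 1) → K) := by
    rw [Module.finrank_fintype_fun_eq_card, Module.finrank_fintype_fun_eq_card, Fintype.card_coe, Fintype.card_coe]
    exact hss
  obtain ⟨u, hu, hu0⟩ := Submodule.exists_mem_ne_zero_of_ne_bot (LinearMap.ker_ne_bot_of_finrank_lt hrk (f := Φ))
  rw [LinearMap.mem_ker] at hu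
  set v := ext' d k (i + 1) u with hv
  -- the functional
  set Λ : (Fin 3 →₀ ℕ) → K := fun w => lam v (w 0) (w 1) (w 2) with hΛ
  have hfl : ∀ w : Fin 3 →₀ ℕ, fl d w = w 0 / d + w 1 / d + w 2 / d := by
    intro w
    unfold fl
    rw [Fin.sum_univ_three]
  have hdg : ∀ w : Fin 3 →₀ ℕ, w.degree = w 0 + w 1 + w 2 := by
    intro w
    rw [Finsupp.degree_eq_sum, Fin.sum_univ_three]
  have hLz : ∀ m : Fin 3 →₀ ℕ, m.degree = i → (∑ c, Λ (m + Finsupp.single c 1)) = 0 := by
    intro m hm
    have e1 : (∑ c, Λ (m + Finsupp.single c 1)) = LL v (m 0) (m 1) (m 2) := by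
      rw [Fin.sum_univ_three, hΛ]
      unfold LL
      simp
    rw [e1]
    rw [hdg] at hm
    by_cases hk : m 0 / d + m 1 / d + m 2 / d < k
    · refine LL_all d k i v ?_ _ _ _ hm hk
      intro a b c h1 h2 h3 h4
      have hmem : (a, b, c) ∈ SS d k i := mem_SS.2 ⟨⟨h3, h4⟩, h1, h2⟩
      exact congrFun hu ⟨(a, b, c), hmem⟩
    · have hle : ∀ x : ℕ, x / d ≤ (x + 1) / d := fun x => Nat.div_le_div_right (Nat.le_succ x)
      have l0 := hle (m 0)
      have l1 := hle (m 1)
      have l2 := hle (m 2)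
      unfold LL
      rw [hv, lam_zero, lam_zero, lam_zero]
      · ring
      all_goals
        rintro ⟨_, h2⟩
        omega
  have hΨel : ∀ f : MvPolynomial (Fin 3) K,
      ∑ w ∈ (Finset.univ : Finset (Fin 3)).finsuppAntidiag (i + 1), Λ w * coeff w (el K 3 * f) = 0 := by
    intro f
    rw [adj]
    refine Finset.sum_eq_zero fun m hm => ?_
    rw [hLz m (mem_anti.1 hm), zero_mul]
  have hΨI : ∀ g ∈ powIdeal K 3 d k,
      ∑ w ∈ (Finset.univ : Finset (Fin 3)).finsuppAntidiag (i + 1), Λ w * coeff w g = 0 := by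
    intro g hg
    rw [mem_powIdeal hd] at hg
    refine Finset.sum_eq_zero fun w _ => ?_
    by_cases hw : fl d w < k
    · rw [hg w hw, mul_zero]
    · have : Λ w = 0 := by
        rw [hΛ]
        show lam v (w 0) (w 1) (w 2) = 0
        rw [hv]
        apply lam_zero
        rintro ⟨_, h2⟩
        exact hw (by rw [hfl]; exact h2)
      rw [this, zero_mul]
  -- a triple where `u` is not zero
  obtain ⟨⟨⟨a, b, c⟩, hp⟩, hpu⟩ : ∃ p, u p ≠ 0 := by
    by_contra hcon
    push Not at hcon
    exact hu0 (funext hcon)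
  have hp' := mem_SS.1 hp
  let w : Fin 3 →₀ ℕ := Finsupp.equivFunOnFinite.symm ![a, b, c]
  have hw0 : w 0 = a := rfl
  have hw1 : w 1 = b := rfl
  have hw2 : w 2 = c := rfl
  have hwd : w.degree = i + 1 := by
    rw [hdg, hw0, hw1, hw2]
    exact hp'.1.1
  obtain ⟨f, hf, hI⟩ := hsurj (monomial w 1) (isHomogeneous_monomial _ hwd)
  rw [pow_one] at hI
  have h1 := hΨI _ hI
  have h2 : ∑ x ∈ (Finset.univ : Finset (Fin 3)).finsuppAntidiag (i + 1), Λ x * coeff x (monomial w (1 : K) - el K 3 * f) =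
      (∑ x ∈ (Finset.univ : Finset (Fin 3)).finsuppAntidiag (i + 1), Λ x * coeff x (monomial w (1 : K))) -
      ∑ x ∈ (Finset.univ : Finset (Fin 3)).finsuppAntidiag (i + 1), Λ x * coeff x (el K 3 * f) := by
    rw [← Finset.sum_sub_distrib]
    refine Finset.sum_congr rfl fun x _ => ?_
    rw [coeff_sub, mul_sub]
  rw [h2, hΨel, sub_zero, Finset.sum_eq_single w] at h1
  · rw [coeff_monomial, if_pos rfl, mul_one] at h1
    have h3 : Λ w = u ⟨(a, b, c), hp⟩ := by
      rw [hΛ]
      show lam v (w 0) (w 1) (w 2) = _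
      rw [hw0, hw1, hw2, hv, lam_sorted d k (i + 1) u a b c hp]
    rw [h3] at h1
    exact hpu h1
  · intro x _ hx
    rw [coeff_monomial, if_neg hx.symm, mul_zero]
  · intro h
    exact absurd (mem_anti.2 hwd) h

end Pool.Agent.V5helper29.W3
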