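import Pool.Agent.V5helper30.W3.Stm

/-!
# Project W3: job PS
-/

set_option autoImplicit false

open MvPolynomial

namespace Pool.Agent.V5helper29.W3

open Pool.Agent.Helper720.Pow Pool.Agent.V5helper30.W3

variable {K : Type*} [Field K]

/-- `g` is a multiple of `el` modulo the ideal -/
def R (d k i : ℕ) (g : MvPolynomial (Fin 3) K) : Prop :=
  ∃ f : MvPolynomial (Fin 3) K, f.IsHomogeneous i ∧ g - el K 3 ^ 1 * f ∈ powIdeal K 3 d k

theorem R_zero (d k i : ℕ) : R d k i (0 : MvPolynomial (Fin 3) K) :=
  ⟨0, isHomogeneous_zero _ _ _, by simp⟩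

theorem R_add {d k i : ℕ} {g h : MvPolynomial (Fin 3) K} (hg : R d k i g) (hh : R d k i h) : R d k i (g + h) := by
  obtain ⟨f, hf, h1⟩ := hg
  obtain ⟨f', hf', h2⟩ := hh
  refine ⟨f + f', hf.add hf', ?_⟩
  have : g + h - el K 3 ^ 1 * (f + f') = (g - el K 3 ^ 1 * f) + (h - el K 3 ^ 1 * f') := by ring
  rw [this]
  exact Ideal.add_mem _ h1 h2

theorem R_smul {d k i : ℕ} (a : K) {g : MvPolynomial (Fin 3) K} (hg : R d k i g) : R d k i (a • g) := by
  obtain ⟨f, hf, h1⟩ := hg
  refine ⟨C a * f, ?_, ?_⟩
  · have := (isHomogeneous_C (Fin 3) a).mul hf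
    rwa [zero_add] at this
  · have : a • g - el K 3 ^ 1 * (C a * f) = C a * (g - el K 3 ^ 1 * f) := by
      rw [smul_eq_C_mul]; ring
    rw [this]
    exact Ideal.mul_mem_left _ _ h1

theorem R_el {d k i : ℕ} {f : MvPolynomial (Fin 3) K} (hf : f.IsHomogeneous i) : R d k i (el K 3 * f) :=
  ⟨f, hf, by rw [pow_one, sub_self]; exact Ideal.zero_mem _⟩

theorem surj_of_monomials {d k i : ℕ}
    (h : ∀ m : Fin 3 →₀ ℕ, m.degree = i + 1 → R d k i (monomial m (1 : K))) : SurjAt K 3 d k i 1 := by
  classical
  intro g hg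
  change R d k i g
  rw [← support_sum_monomial_coeff g]
  have hall : ∀ s : Finset (Fin 3 →₀ ℕ), s ⊆ g.support → R d k i (∑ m ∈ s, monomial m (coeff m g)) := by
    intro s
    induction s using Finset.induction_on with
    | empty => intro _; rw [Finset.sum_empty]; exact R_zero d k i
    | insert m s hm ih =>
      intro hs
      rw [Finset.sum_insert hm]
      refine R_add ?_ (ih fun x hx => hs (Finset.mem_insert_of_mem hx))
      have h1 : monomial m (coeff m g) = coeff m g • monomial m (1 : K) := by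
        rw [smul_monomial, smul_eq_mul, mul_one]
      rw [h1]
      refine R_smul _ (h m (degree_of_coeff hg ?_))
      exact mem_support_iff.1 (hs (Finset.mem_insert_self _ _))
  exact hall _ (Finset.Subset.refl _)

/-- it is enough to treat the monomials without `z` -/
theorem surj_of_two {d k i : ℕ}
    (h : ∀ m : Fin 3 →₀ ℕ, m.degree = i + 1 → m 2 = 0 → R d k i (monomial m (1 : K))) : SurjAt K 3 d k i 1 := by
  classical
  refine surj_of_monomials ?_
  have key : ∀ (c : ℕ) (m : Fin 3 →₀ ℕ), m 2 = c → m.degree = i + 1 → R d k i (monomial m (1 : K)) := by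
    intro c
    induction c with
    | zero => intro m h2 hm; exact h m hm h2
    | succ c ih =>
      intro m h2 hm
      obtain ⟨m', hm'⟩ : ∃ m' : Fin 3 →₀ ℕ, m = m' + Finsupp.single 2 1 := by
        refine ⟨m - Finsupp.single 2 1, (tsub_add_cancel_of_le ?_).symm⟩
        rw [Finsupp.single_le_iff]
        omega
      have hdeg : m'.degree = i := by
        rw [hm', map_add, Finsupp.degree_single] at hm
        omega
      have hc : m' 2 = c := by
        rw [hm', Finsupp.add_apply, Finsupp.single_eq_same] at h2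
        omega
      have hmon : ∀ j : Fin 3, monomial (m' + Finsupp.single j 1) (1 : K) = X j * monomial m' (1 : K) := by
        intro j
        rw [X, monomial_mul, one_mul, add_comm]
      have h3 : monomial m (1 : K) = el K 3 * monomial m' (1 : K) +
          ((-1 : K) • monomial (m' + Finsupp.single 0 1) (1 : K) +
            (-1 : K) • monomial (m' + Finsupp.single 1 1) (1 : K)) := by
        rw [hm', hmon, hmon, hmon]
        unfold el
        rw [Fin.sum_univ_three]
        simp only [neg_smul, one_smul]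
        ring
      rw [h3]
      refine R_add (R_el (isHomogeneous_monomial _ hdeg)) (R_add (R_smul _ (ih _ ?_ ?_)) (R_smul _ (ih _ ?_ ?_)))
      · simp [hc]
      · rw [map_add, Finsupp.degree_single, hdeg]
      · simp [hc]
      · rw [map_add, Finsupp.degree_single, hdeg]
  intro m hm
  exact key _ m rfl hm

theorem degree_three (m : Fin 3 →₀ ℕ) : m.degree = m 0 + m 1 + m 2 := by
  rw [Finsupp.degree_eq_sum, Fin.sum_univ_three]

/-- Job PS. -/
theorem t_PS (K : Type*) [Field K] [CharZero K] : S_PS K := by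
  classical
  intro d k hd hk hs
  refine surj_of_two ?_
  intro m hm h2
  obtain ⟨k', rfl⟩ : ∃ k', k = k' + 1 := ⟨k - 1, by omega⟩
  rw [Nat.add_sub_cancel] at hs
  have hex : ∃ c, d ≤ m c := by
    by_contra hcon
    push Not at hcon
    have h0 := hcon 0
    have h1 := hcon 1
    rw [degree_three, h2] at hm
    have : d * (k' + 1) ≥ d * 2 := Nat.mul_le_mul_left _ hk
    omega
  obtain ⟨c, hc⟩ := hex
  obtain ⟨m', hm'⟩ : ∃ m' : Fin 3 →₀ ℕ, m = Finsupp.single c d + m' := by
    refine ⟨m - Finsupp.single c d, (add_tsub_cancel_of_le ?_).symm⟩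
    rw [Finsupp.single_le_iff]
    exact hc
  have hdeg : m'.degree = d * k' + 1 := by
    rw [hm', map_add, Finsupp.degree_single, mul_add, mul_one] at hm
    omega
  obtain ⟨f, hf, hI⟩ := hs (monomial m' 1) (isHomogeneous_monomial _ hdeg)
  refine ⟨X c ^ d * f, ?_, ?_⟩
  · have h3 := (isHomogeneous_X_pow (R := K) c d).mul hf
    have e1 : d + d * k' = d * (k' + 1) := by ring
    rwa [e1] at h3
  · have h3 : monomial m (1 : K) = X c ^ d * monomial m' (1 : K) := by
      rw [hm', X_pow_eq_monomial, monomial_mul, one_mul]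
    have h4 : monomial m (1 : K) - el K 3 ^ 1 * (X c ^ d * f) = X c ^ d * (monomial m' (1 : K) - el K 3 ^ 1 * f) := by
      rw [h3]; ring
    rw [h4]
    unfold powIdeal at hI ⊢
    rw [pow_succ']
    exact Ideal.mul_mem_mul (Ideal.subset_span ⟨c, rfl⟩) hI

end Pool.Agent.V5helper29.W3
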